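import Pool.Agent.N165.CU.StmH
import Pool.Agent.N749.CU.Alg

set_option autoImplicit false

/-!
# Project CU (helper165), part HYP: every polynomial plus `∑ u_k v_k` is equivalent to the polynomial
of a hypergraph with edges of size at most three (helper400)
-/

namespace Pool.Agent.N400.CU

open MvPolynomial Pool.Agent.N165.CU Pool.Agent.N749.CU

/-- the property to be proved -/
def UNI (ρ : Type) (h : MvPolynomial ρ ℤ) : Prop :=
  ∃ (κ : Type) (_ : Fintype κ) (Φ : MvPolynomial (ρ ⊕ (κ ⊕ κ)) ℤ ≃ₐ[ℤ]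
    MvPolynomial (ρ ⊕ (κ ⊕ κ)) ℤ) (H : Finset (Finset (ρ ⊕ (κ ⊕ κ)))),
    2 ≤ Fintype.card κ ∧ (∀ e ∈ H, 1 ≤ e.card ∧ e.card ≤ 3) ∧ Φ (quad h κ) = hyp H

theorem hyp_rename {V W : Type} (e : V ≃ W) (H : Finset (Finset V)) :
    rename e (hyp H) = hyp (H.map (Finset.mapEmbedding e.toEmbedding).toEmbedding) := by
  unfold hyp
  rw [map_sum, Finset.sum_map]
  refine Finset.sum_congr rfl fun x _ => ?_
  rw [map_prod]
  show _ = ∏ i ∈ x.map e.toEmbedding, X i
  rw [Finset.prod_map]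
  refine Finset.prod_congr rfl fun i _ => ?_
  rw [rename_X]
  rfl

theorem UNI_trans {ρ K : Type} [Fintype K] (h : MvPolynomial ρ ℤ)
    (Ψ : MvPolynomial (ρ ⊕ (K ⊕ K)) ℤ ≃ₐ[ℤ] MvPolynomial (ρ ⊕ (K ⊕ K)) ℤ)
    (H : UNI (ρ ⊕ (K ⊕ K)) (Ψ (quad h K))) : UNI ρ h := by
  obtain ⟨κ, hκ, Φ, H, h2, h3, h4⟩ := H
  refine ⟨K ⊕ κ, inferInstance, (renameEquiv ℤ (ee ρ K κ)).trans ((extEquiv Ψ).trans
    (Φ.trans (renameEquiv ℤ (ee ρ K κ)).symm)),
    H.map (Finset.mapEmbedding (ee ρ K κ).symm.toEmbedding).toEmbedding, ?_, ?_, ?_⟩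
  · rw [Fintype.card_sum]
    omega
  · intro e he
    rw [Finset.mem_map] at he
    obtain ⟨e', he', rfl⟩ := he
    have := h3 e' he'
    show 1 ≤ (e'.map (ee ρ K κ).symm.toEmbedding).card ∧
      (e'.map (ee ρ K κ).symm.toEmbedding).card ≤ 3
    rwa [Finset.card_map]
  · have e1 : ((renameEquiv ℤ (ee ρ K κ)).trans ((extEquiv Ψ).trans
        (Φ.trans (renameEquiv ℤ (ee ρ K κ)).symm))) (quad h (K ⊕ κ)) =
        rename (ee ρ K κ).symm (Φ (quad (Ψ (quad h K)) κ)) := by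
      rw [← extEquiv_quad, ← ee_quad]
      rfl
    rw [e1, h4, hyp_rename]

/-- scaling of the variables `v_k` -/
noncomputable def scHom {ρ K : Type} (ε : ℤ) :
    MvPolynomial (ρ ⊕ (K ⊕ K)) ℤ →ₐ[ℤ] MvPolynomial (ρ ⊕ (K ⊕ K)) ℤ :=
  aeval (Sum.elim (fun x => X (Sum.inl x)) (Sum.elim (fun k => X (Sum.inr (Sum.inl k)))
    fun k => C ε * X (Sum.inr (Sum.inr k))))

theorem scHom_inl {ρ K : Type} (ε : ℤ) (g : MvPolynomial ρ ℤ) :
    scHom (K := K) ε (rename Sum.inl g) = rename Sum.inl g := by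
  have h : (scHom (ρ := ρ) (K := K) ε).comp (rename Sum.inl) = rename Sum.inl := by
    apply algHom_ext
    intro x
    simp [scHom]
  exact congrArg (fun F => F g) h

theorem scHom_u {ρ K : Type} (ε : ℤ) (k : K) :
    scHom (ρ := ρ) ε (X (Sum.inr (Sum.inl k))) = X (Sum.inr (Sum.inl k)) := by
  simp [scHom]

theorem scHom_v {ρ K : Type} (ε : ℤ) (k : K) :
    scHom (ρ := ρ) ε (X (Sum.inr (Sum.inr k))) = C ε * X (Sum.inr (Sum.inr k)) := by
  simp [scHom]

theorem scHom_comp {ρ K : Type} (ε : ℤ) (hε : ε * ε = 1) :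
    (scHom (ρ := ρ) (K := K) ε).comp (scHom ε) = AlgHom.id ℤ _ := by
  apply algHom_ext
  rintro (x | k | k)
  · rw [AlgHom.comp_apply, AlgHom.id_apply]
    simp [scHom]
  · rw [AlgHom.comp_apply, AlgHom.id_apply, scHom_u, scHom_u]
  · rw [AlgHom.comp_apply, AlgHom.id_apply, scHom_v, map_mul, scHom_v]
    have : scHom (ρ := ρ) (K := K) ε (C ε) = C ε := by
      rw [← algebraMap_eq]
      exact AlgHom.commutes _ _
    rw [this, ← mul_assoc, ← C_mul, hε, C_1, one_mul]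

/-- scaling of the variables `v_k` -/
noncomputable def scEquiv {ρ K : Type} (ε : ℤ) (hε : ε * ε = 1) :
    MvPolynomial (ρ ⊕ (K ⊕ K)) ℤ ≃ₐ[ℤ] MvPolynomial (ρ ⊕ (K ⊕ K)) ℤ :=
  AlgEquiv.ofAlgHom (scHom ε) (scHom ε) (scHom_comp ε hε) (scHom_comp ε hε)

/-- the general step -/
theorem gstep {ρ K : Type} [Fintype K] (r : MvPolynomial ρ ℤ) (ε : ℤ) (hε : ε * ε = 1)
    (A B : K → MvPolynomial ρ ℤ)
    (H : UNI (ρ ⊕ (K ⊕ K)) (rename Sum.inl r + C ε * ∑ k,
      (X (Sum.inr (Sum.inl k)) * X (Sum.inr (Sum.inr k)) +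
        X (Sum.inr (Sum.inl k)) * rename Sum.inl (B k) +
        X (Sum.inr (Sum.inr k)) * rename Sum.inl (A k)))) :
    UNI ρ (r - C ε * ∑ k, A k * B k) := by
  refine UNI_trans _ ((shEquiv (Sum.elim A fun k => C ε * B k)).trans (scEquiv ε hε)) ?_
  have e1 : ((shEquiv (Sum.elim A fun k => C ε * B k)).trans (scEquiv ε hε))
      (quad (r - C ε * ∑ k, A k * B k) K) =
      scHom ε (shHom (Sum.elim A fun k => C ε * B k) (quad (r - C ε * ∑ k, A k * B k) K)) := rfl
  have hC : ∀ (τ σ : Type) (F : MvPolynomial τ ℤ →ₐ[ℤ] MvPolynomial σ ℤ), F (C ε) = C ε := by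
    intro τ σ F
    rw [← algebraMap_eq, ← algebraMap_eq]
    exact AlgHom.commutes _ _
  have e2 : ((shEquiv (Sum.elim A fun k => C ε * B k)).trans (scEquiv ε hε))
      (quad (r - C ε * ∑ k, A k * B k) K) = rename Sum.inl r + C ε * ∑ k,
      (X (Sum.inr (Sum.inl k)) * X (Sum.inr (Sum.inr k)) +
        X (Sum.inr (Sum.inl k)) * rename Sum.inl (B k) +
        X (Sum.inr (Sum.inr k)) * rename Sum.inl (A k)) := by
    rw [e1]
    unfold quad
    rw [map_add, map_add, shHom_inl, scHom_inl, map_sum, map_sum, map_sub, map_mul, hC, map_sum,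
      Finset.mul_sum, Finset.mul_sum, sub_add, ← Finset.sum_sub_distrib, sub_eq_add_neg,
      ← Finset.sum_neg_distrib]
    congr 1
    refine Finset.sum_congr rfl fun k _ => ?_
    rw [map_mul, map_mul, shHom_inr, shHom_inr, map_mul, map_add, map_add, scHom_u, scHom_v,
      scHom_inl, scHom_inl]
    simp only [Sum.elim_inl, Sum.elim_inr, map_mul, hC]
    ring
  rw [e2]
  exact H

/-- the polynomial of a family of finite sets -/
noncomputable def SF {ρ K : Type} [Fintype K] (s : K → Finset ρ) : MvPolynomial ρ ℤ :=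
  ∑ k, ∏ i ∈ s k, X i

/-- the polynomial of a family of monomials -/
noncomputable def SM {ρ K : Type} [Fintype K] (m : K → ρ →₀ ℕ) : MvPolynomial ρ ℤ :=
  ∑ k, monomial (m k) 1

theorem SF_inj {ρ K : Type} [Fintype K] (s : K → Finset ρ) (hs : Function.Injective s) :
    ∃ H : Finset (Finset ρ), SF s = hyp H ∧ ∀ e ∈ H, ∃ k, e = s k := by
  classical
  refine ⟨Finset.univ.image s, ?_, ?_⟩
  · unfold SF hyp
    rw [Finset.sum_image fun a _ b _ h => hs h]
  · intro e he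
    obtain ⟨k, -, rfl⟩ := Finset.mem_image.1 he
    exact ⟨k, rfl⟩

/-- the new family at the end -/
def tE {ρ K : Type} [DecidableEq ρ] (s : K → Finset ρ) :
    K ⊕ Bool → Finset (ρ ⊕ (Bool ⊕ Bool)) :=
  Sum.elim (fun k => (s k).map ⟨Sum.inl, Sum.inl_injective⟩)
    fun b => {Sum.inr (Sum.inl b), Sum.inr (Sum.inr b)}

theorem tE_inj {ρ K : Type} [DecidableEq ρ] (s : K → Finset ρ) (hs : Function.Injective s) :
    Function.Injective (tE s) := by
  rintro (k | b) (k' | b') h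
  · have : s k = s k' := Finset.map_injective _ h
    rw [hs this]
  · exfalso
    have h1 : (Sum.inr (Sum.inl b') : ρ ⊕ (Bool ⊕ Bool)) ∈ tE s (Sum.inr b') := by
      simp [tE]
    rw [← h] at h1
    simp [tE] at h1
  · exfalso
    have h1 : (Sum.inr (Sum.inl b) : ρ ⊕ (Bool ⊕ Bool)) ∈ tE s (Sum.inr b) := by
      simp [tE]
    rw [h] at h1
    simp [tE] at h1
  · have h1 : (Sum.inr (Sum.inl b) : ρ ⊕ (Bool ⊕ Bool)) ∈ tE s (Sum.inr b) := by
      simp [tE]
    rw [h] at h1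
    simp [tE] at h1
    rw [h1]

theorem tE_card {ρ K : Type} [DecidableEq ρ] (s : K → Finset ρ)
    (h3 : ∀ k, 1 ≤ (s k).card ∧ (s k).card ≤ 3) (x : K ⊕ Bool) :
    1 ≤ (tE s x).card ∧ (tE s x).card ≤ 3 := by
  rcases x with k | b
  · show 1 ≤ ((s k).map ⟨Sum.inl, Sum.inl_injective⟩).card ∧
      ((s k).map ⟨Sum.inl, Sum.inl_injective⟩).card ≤ 3
    rw [Finset.card_map]
    exact h3 k
  · have : (tE s (Sum.inr b)).card = 2 := by
      show ({Sum.inr (Sum.inl b), Sum.inr (Sum.inr b)} : Finset (ρ ⊕ (Bool ⊕ Bool))).card = 2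
      rw [Finset.card_pair]
      simp
    omega

theorem tE_SF {ρ K : Type} [Fintype K] [DecidableEq ρ] (s : K → Finset ρ) :
    SF (tE s) = quad (SF s) Bool := by
  unfold quad SF
  rw [Fintype.sum_sum_type, map_sum]
  refine congrArg₂ (· + ·) ?_ ?_
  · refine Finset.sum_congr rfl fun k _ => ?_
    rw [map_prod]
    show ∏ i ∈ (s k).map ⟨Sum.inl, Sum.inl_injective⟩, X i = _
    rw [Finset.prod_map]
    refine Finset.prod_congr rfl fun i _ => ?_
    rw [rename_X]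
    rfl
  · refine Finset.sum_congr rfl fun b _ => ?_
    show ∏ i ∈ ({Sum.inr (Sum.inl b), Sum.inr (Sum.inr b)} : Finset (ρ ⊕ (Bool ⊕ Bool))), X i = _
    rw [Finset.prod_pair (by simp)]

theorem end_ {ρ K : Type} [Fintype K] [DecidableEq ρ] (s : K → Finset ρ)
    (hs : Function.Injective s)
    (h3 : ∀ k, 1 ≤ (s k).card ∧ (s k).card ≤ 3) : UNI ρ (SF s) := by
  obtain ⟨H, hH, hH2⟩ := SF_inj (tE s) (tE_inj s hs)
  refine ⟨Bool, inferInstance, AlgEquiv.refl, H, by simp, ?_, ?_⟩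
  · intro e he
    obtain ⟨k, rfl⟩ := hH2 e he
    exact tE_card s h3 k
  · rw [← hH, tE_SF]
    rfl

/-- the new family after a step -/
def tS {ρ K : Type} [DecidableEq ρ] [DecidableEq K] (s₁ s₂ : K → Finset ρ) :
    K ⊕ (K ⊕ K) → Finset (ρ ⊕ (K ⊕ K)) :=
  Sum.elim (fun k => {Sum.inr (Sum.inl k), Sum.inr (Sum.inr k)})
    (Sum.elim (fun k => insert (Sum.inr (Sum.inl k)) ((s₂ k).map ⟨Sum.inl, Sum.inl_injective⟩))
      fun k => insert (Sum.inr (Sum.inr k)) ((s₁ k).map ⟨Sum.inl, Sum.inl_injective⟩))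

theorem tS_u {ρ K : Type} [DecidableEq ρ] [DecidableEq K] (s₁ s₂ : K → Finset ρ) (k : K)
    (x : K ⊕ (K ⊕ K)) : (Sum.inr (Sum.inl k) : ρ ⊕ (K ⊕ K)) ∈ tS s₁ s₂ x ↔
      x = Sum.inl k ∨ x = Sum.inr (Sum.inl k) := by
  rcases x with x | x | x <;> simp [tS, eq_comm]

theorem tS_v {ρ K : Type} [DecidableEq ρ] [DecidableEq K] (s₁ s₂ : K → Finset ρ) (k : K)
    (x : K ⊕ (K ⊕ K)) : (Sum.inr (Sum.inr k) : ρ ⊕ (K ⊕ K)) ∈ tS s₁ s₂ x ↔
      x = Sum.inl k ∨ x = Sum.inr (Sum.inr k) := by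
  rcases x with x | x | x <;> simp [tS, eq_comm]

theorem tS_inj {ρ K : Type} [DecidableEq ρ] [DecidableEq K] (s₁ s₂ : K → Finset ρ) :
    Function.Injective (tS s₁ s₂) := by
  intro x y h
  rcases x with k | k | k
  · have h1 := (tS_u s₁ s₂ k (Sum.inl k)).2 (Or.inl rfl)
    have h2 := (tS_v s₁ s₂ k (Sum.inl k)).2 (Or.inl rfl)
    rw [h, tS_u] at h1
    rw [h, tS_v] at h2
    rcases h1 with h1 | h1
    · exact h1.symm
    · rcases h2 with h2 | h2
      · exact h2.symm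
      · rw [h1] at h2
        simp at h2
  · have h1 := (tS_u s₁ s₂ k (Sum.inr (Sum.inl k))).2 (Or.inr rfl)
    rw [h, tS_u] at h1
    rcases h1 with h1 | h1
    · have h2 := (tS_v s₁ s₂ k y).2 (Or.inl h1)
      rw [← h, tS_v] at h2
      simp at h2
    · exact h1.symm
  · have h1 := (tS_v s₁ s₂ k (Sum.inr (Sum.inr k))).2 (Or.inr rfl)
    rw [h, tS_v] at h1
    rcases h1 with h1 | h1
    · have h2 := (tS_u s₁ s₂ k y).2 (Or.inl h1)
      rw [← h, tS_u] at h2
      simp at h2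
    · exact h1.symm

theorem tS_card {ρ K : Type} [DecidableEq ρ] [DecidableEq K] (s₁ s₂ : K → Finset ρ) (c : ℕ)
    (h1 : ∀ k, (s₁ k).card ≤ c) (h2 : ∀ k, (s₂ k).card ≤ c) (x : K ⊕ (K ⊕ K)) :
    1 ≤ (tS s₁ s₂ x).card ∧ (tS s₁ s₂ x).card ≤ max 2 (c + 1) := by
  rcases x with k | k | k
  · have : (tS s₁ s₂ (Sum.inl k)).card = 2 := by
      show ({Sum.inr (Sum.inl k), Sum.inr (Sum.inr k)} : Finset (ρ ⊕ (K ⊕ K))).card = 2
      rw [Finset.card_pair]
      simp
    rw [this]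
    exact ⟨by omega, le_max_left _ _⟩
  · have : (tS s₁ s₂ (Sum.inr (Sum.inl k))).card = (s₂ k).card + 1 := by
      show (insert (Sum.inr (Sum.inl k)) ((s₂ k).map ⟨Sum.inl, Sum.inl_injective⟩) :
        Finset (ρ ⊕ (K ⊕ K))).card = _
      rw [Finset.card_insert_of_notMem (by simp), Finset.card_map]
    have h3 := h2 k
    rw [this]
    exact ⟨by omega, le_max_of_le_right (by omega)⟩
  · have : (tS s₁ s₂ (Sum.inr (Sum.inr k))).card = (s₁ k).card + 1 := by
      show (insert (Sum.inr (Sum.inr k)) ((s₁ k).map ⟨Sum.inl, Sum.inl_injective⟩) :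
        Finset (ρ ⊕ (K ⊕ K))).card = _
      rw [Finset.card_insert_of_notMem (by simp), Finset.card_map]
    have h3 := h1 k
    rw [this]
    exact ⟨by omega, le_max_of_le_right (by omega)⟩

/-- the step for squarefree polynomials -/
theorem fstep {ρ K : Type} [Fintype K] [DecidableEq ρ] [DecidableEq K] (ε : ℤ) (hε : ε * ε = 1)
    (s₁ s₂ : K → Finset ρ) (hd : ∀ k, Disjoint (s₁ k) (s₂ k))
    (H : UNI (ρ ⊕ (K ⊕ K)) (C (-ε) * SF (tS s₁ s₂))) :
    UNI ρ (C ε * SF fun k => s₁ k ∪ s₂ k) := by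
  have h1 := gstep (ρ := ρ) (K := K) 0 (-ε) (by rw [neg_mul_neg]; exact hε)
    (fun k => ∏ i ∈ s₁ k, X i) (fun k => ∏ i ∈ s₂ k, X i) (by
      have e1 : rename Sum.inl (0 : MvPolynomial ρ ℤ) + C (-ε) * ∑ k,
          (X (Sum.inr (Sum.inl k)) * X (Sum.inr (Sum.inr k)) +
          X (Sum.inr (Sum.inl k)) * rename Sum.inl (∏ i ∈ s₂ k, X i) +
          X (Sum.inr (Sum.inr k)) * rename Sum.inl (∏ i ∈ s₁ k, X i)) =
          C (-ε) * SF (tS s₁ s₂) := by
        rw [map_zero, zero_add]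
        congr 1
        unfold SF
        rw [Fintype.sum_sum_type, Fintype.sum_sum_type, Finset.sum_add_distrib,
          Finset.sum_add_distrib, add_assoc]
        congr 1
        · refine Finset.sum_congr rfl fun k _ => ?_
          show _ = ∏ i ∈ ({Sum.inr (Sum.inl k), Sum.inr (Sum.inr k)} : Finset (ρ ⊕ (K ⊕ K))), X i
          rw [Finset.prod_pair (by simp)]
        · congr 1
          · refine Finset.sum_congr rfl fun k _ => ?_
            show _ = ∏ i ∈ insert (Sum.inr (Sum.inl k))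
              ((s₂ k).map ⟨Sum.inl, Sum.inl_injective⟩), X i
            rw [Finset.prod_insert (by simp), Finset.prod_map, map_prod]
            congr 1
            refine Finset.prod_congr rfl fun i _ => ?_
            rw [rename_X]
            rfl
          · refine Finset.sum_congr rfl fun k _ => ?_
            show _ = ∏ i ∈ insert (Sum.inr (Sum.inr k))
              ((s₁ k).map ⟨Sum.inl, Sum.inl_injective⟩), X i
            rw [Finset.prod_insert (by simp), Finset.prod_map, map_prod]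
            congr 1
            refine Finset.prod_congr rfl fun i _ => ?_
            rw [rename_X]
            rfl
      rw [e1]
      exact H)
  have e2 : (0 : MvPolynomial ρ ℤ) - C (-ε) * ∑ k, (∏ i ∈ s₁ k, X i) * (∏ i ∈ s₂ k, X i) =
      C ε * SF fun k => s₁ k ∪ s₂ k := by
    rw [C_neg, neg_mul, sub_neg_eq_add, zero_add]
    congr 1
    unfold SF
    refine Finset.sum_congr rfl fun k _ => ?_
    rw [Finset.prod_union (hd k)]
  rw [e2] at h1
  exact h1

theorem split_f {ρ : Type} [DecidableEq ρ] (s : Finset ρ) (a b : ℕ) (h : s.card ≤ a + b) :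
    ∃ s₁ s₂ : Finset ρ, Disjoint s₁ s₂ ∧ s₁ ∪ s₂ = s ∧ s₁.card ≤ a ∧ s₂.card ≤ b := by
  obtain ⟨t, ht, hc⟩ := Finset.exists_subset_card_eq (s := s) (n := min s.card a)
    (min_le_left _ _)
  refine ⟨t, s \ t, Finset.disjoint_sdiff, Finset.union_sdiff_of_subset ht, ?_, ?_⟩
  · rw [hc]
    exact min_le_right _ _
  · rw [Finset.card_sdiff_of_subset ht, hc]
    omega

theorem P3neg {ρ K : Type} [Fintype K] (s : K → Finset ρ) (h3 : ∀ k, (s k).card ≤ 3) :
    UNI ρ (C (-1) * SF s) := by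
  classical
  have h1 : ∀ k, ∃ s₁ s₂ : Finset ρ, Disjoint s₁ s₂ ∧ s₁ ∪ s₂ = s k ∧ s₁.card ≤ 2 ∧
      s₂.card ≤ 2 := fun k => split_f (s k) 2 2 ((h3 k).trans (by norm_num))
  choose s₁ s₂ hd hu hc1 hc2 using h1
  have h2 := fstep (-1) (by norm_num) s₁ s₂ hd (by
    rw [neg_neg, C_1, one_mul]
    exact end_ _ (tS_inj s₁ s₂) fun x => by
      have := tS_card s₁ s₂ 2 hc1 hc2 x
      exact ⟨this.1, this.2.trans (by norm_num)⟩)
  have h4 : (fun k => s₁ k ∪ s₂ k) = s := funext hu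
  rw [h4] at h2
  exact h2

theorem P3 {ρ K : Type} [Fintype K] (ε : ℤ) (hε : ε = 1 ∨ ε = -1) (s : K → Finset ρ)
    (h3 : ∀ k, (s k).card ≤ 3) : UNI ρ (C ε * SF s) := by
  classical
  rcases hε with rfl | rfl
  · have h1 : ∀ k, ∃ s₁ s₂ : Finset ρ, Disjoint s₁ s₂ ∧ s₁ ∪ s₂ = s k ∧ s₁.card ≤ 2 ∧
        s₂.card ≤ 2 := fun k => split_f (s k) 2 2 ((h3 k).trans (by norm_num))
    choose s₁ s₂ hd hu hc1 hc2 using h1
    have h2 := fstep 1 (by norm_num) s₁ s₂ hd (P3neg _ fun x =>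
      (tS_card s₁ s₂ 2 hc1 hc2 x).2.trans (by norm_num))
    have h4 : (fun k => s₁ k ∪ s₂ k) = s := funext hu
    rw [h4] at h2
    exact h2
  · exact P3neg s h3

theorem P2 (d : ℕ) : ∀ (ρ K : Type) [Fintype K] (ε : ℤ) (_ : ε = 1 ∨ ε = -1)
    (s : K → Finset ρ) (_ : ∀ k, (s k).card ≤ d), UNI ρ (C ε * SF s) := by
  classical
  induction d using Nat.strong_induction_on with
  | _ d ih =>
    intro ρ K _ ε hε s hs
    by_cases h3 : d ≤ 3
    · exact P3 ε hε s fun k => (hs k).trans h3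
    · have h1 : ∀ k, ∃ s₁ s₂ : Finset ρ, Disjoint s₁ s₂ ∧ s₁ ∪ s₂ = s k ∧
          s₁.card ≤ (d + 1) / 2 ∧ s₂.card ≤ (d + 1) / 2 := fun k =>
        split_f (s k) _ _ ((hs k).trans (by omega))
      choose s₁ s₂ hd hu hc1 hc2 using h1
      have h2 := fstep ε (by rcases hε with rfl | rfl <;> norm_num) s₁ s₂ hd
        (ih (max 2 ((d + 1) / 2 + 1)) (by omega) _ _ (-ε)
          (by rcases hε with rfl | rfl <;> simp) _ fun x => (tS_card s₁ s₂ _ hc1 hc2 x).2)
      have h4 : (fun k => s₁ k ∪ s₂ k) = s := funext hu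
      rw [h4] at h2
      exact h2

/-- the new monomials after a step -/
noncomputable def tM {ρ K : Type} (m₁ m₂ : K → ρ →₀ ℕ) : K ⊕ (K ⊕ K) → (ρ ⊕ (K ⊕ K)) →₀ ℕ :=
  Sum.elim (fun k => Finsupp.single (Sum.inr (Sum.inl k)) 1 + Finsupp.single (Sum.inr (Sum.inr k)) 1)
    (Sum.elim (fun k => Finsupp.single (Sum.inr (Sum.inl k)) 1 + Finsupp.mapDomain Sum.inl (m₂ k))
      fun k => Finsupp.single (Sum.inr (Sum.inr k)) 1 + Finsupp.mapDomain Sum.inl (m₁ k))

theorem tM_SM {ρ K : Type} [Fintype K] (m₁ m₂ : K → ρ →₀ ℕ) :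
    SM (tM m₁ m₂) = ∑ k : K, ((X (Sum.inr (Sum.inl k)) * X (Sum.inr (Sum.inr k)) +
          X (Sum.inr (Sum.inl k)) * rename Sum.inl (monomial (m₂ k) 1) +
          X (Sum.inr (Sum.inr k)) * rename Sum.inl (monomial (m₁ k) 1) :
          MvPolynomial (ρ ⊕ (K ⊕ K)) ℤ)) := by
  unfold SM
  rw [Fintype.sum_sum_type, Fintype.sum_sum_type, Finset.sum_add_distrib,
    Finset.sum_add_distrib, add_assoc]
  have hX : ∀ i : ρ ⊕ (K ⊕ K), (X i : MvPolynomial (ρ ⊕ (K ⊕ K)) ℤ) =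
    monomial (Finsupp.single i 1) 1 := fun i => rfl
  congr 1
  · refine Finset.sum_congr rfl fun k _ => ?_
    rw [hX, hX, monomial_mul, one_mul]
    rfl
  · congr 1
    · refine Finset.sum_congr rfl fun k _ => ?_
      rw [hX, rename_monomial, monomial_mul, one_mul]
      rfl
    · refine Finset.sum_congr rfl fun k _ => ?_
      rw [hX, rename_monomial, monomial_mul, one_mul]
      rfl

/-- the step for monomials -/
theorem mstep {ρ K : Type} [Fintype K] (ε : ℤ) (hε : ε * ε = 1) (m₁ m₂ : K → ρ →₀ ℕ)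
    (H : UNI (ρ ⊕ (K ⊕ K)) (C (-ε) * SM (tM m₁ m₂))) :
    UNI ρ (C ε * SM fun k => m₁ k + m₂ k) := by
  have h1 := gstep (ρ := ρ) (K := K) 0 (-ε) (by rw [neg_mul_neg]; exact hε)
    (fun k => monomial (m₁ k) 1) (fun k => monomial (m₂ k) 1) (by
      rw [map_zero, zero_add, ← tM_SM]
      exact H)
  have e2 : (0 : MvPolynomial ρ ℤ) - C (-ε) * ∑ k, monomial (m₁ k) 1 * monomial (m₂ k) 1 =
      C ε * SM fun k => m₁ k + m₂ k := by
    rw [C_neg, neg_mul, sub_neg_eq_add, zero_add]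
    congr 1
    unfold SM
    refine Finset.sum_congr rfl fun k _ => ?_
    rw [monomial_mul, one_mul]
  rw [e2] at h1
  exact h1

theorem tM_le {ρ K : Type} (m₁ m₂ : K → ρ →₀ ℕ) (c : ℕ) (h1 : ∀ k i, m₁ k i ≤ c)
    (h2 : ∀ k i, m₂ k i ≤ c) (x : K ⊕ (K ⊕ K)) (i : ρ ⊕ (K ⊕ K)) :
    tM m₁ m₂ x i ≤ max 1 c := by
  classical
  have hA : ∀ (m : ρ →₀ ℕ) (j : K ⊕ K), (∀ i, m i ≤ c) →
      ((Finsupp.single (Sum.inr j) 1 + Finsupp.mapDomain Sum.inl m : (ρ ⊕ (K ⊕ K)) →₀ ℕ)) i ≤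
        max 1 c := by
    intro m j hm
    rw [Finsupp.add_apply]
    rcases i with i | i
    · rw [Finsupp.mapDomain_apply Sum.inl_injective, Finsupp.single_eq_of_ne (by simp), zero_add]
      exact le_max_of_le_right (hm i)
    · rw [Finsupp.mapDomain_of_notMem_range _ _ (by simp), add_zero, Finsupp.single_apply]
      split_ifs
      · exact le_max_left _ _
      · exact Nat.zero_le _
  rcases x with k | k | k
  · show (Finsupp.single (Sum.inr (Sum.inl k)) 1 + Finsupp.single (Sum.inr (Sum.inr k)) 1 :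
      (ρ ⊕ (K ⊕ K)) →₀ ℕ) i ≤ _
    rw [Finsupp.add_apply, Finsupp.single_apply, Finsupp.single_apply]
    refine le_max_of_le_left ?_
    split_ifs with h3 h4 h4
    · rw [← h3] at h4
      simp at h4
    · exact le_rfl
    · exact le_rfl
    · exact Nat.zero_le _
  · exact hA _ _ (h2 k)
  · exact hA _ _ (h1 k)

theorem SM_squarefree {ρ K : Type} [Fintype K] (m : K → ρ →₀ ℕ) (h : ∀ k i, m k i ≤ 1) :
    SM m = SF fun k => (m k).support := by
  unfold SM SF
  refine Finset.sum_congr rfl fun k _ => ?_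
  rw [monomial_eq, C_1, one_mul, Finsupp.prod]
  refine Finset.prod_congr rfl fun i hi => ?_
  have h1 := h k i
  have h2 : m k i ≠ 0 := Finsupp.mem_support_iff.1 hi
  have h3 : m k i = 1 := by omega
  rw [h3, pow_one]

theorem P1 (E : ℕ) : ∀ (ρ K : Type) [Fintype K] (ε : ℤ) (_ : ε = 1 ∨ ε = -1)
    (m : K → ρ →₀ ℕ) (_ : ∀ k i, m k i ≤ E), UNI ρ (C ε * SM m) := by
  classical
  induction E using Nat.strong_induction_on with
  | _ E ih =>
    intro ρ K _ ε hε m hm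
    by_cases h1 : E ≤ 1
    · rw [SM_squarefree m fun k i => (hm k i).trans h1]
      exact P2 (Finset.univ.sup fun k => (m k).support.card) ρ K ε hε _ fun k =>
        Finset.le_sup (f := fun k => (m k).support.card) (Finset.mem_univ k)
    · have h2 := mstep ε (by rcases hε with rfl | rfl <;> norm_num)
        (fun k => (m k).mapRange (fun x => (x + 1) / 2) rfl)
        (fun k => (m k).mapRange (fun x => x / 2) rfl)
        (ih (max 1 ((E + 1) / 2)) (by omega) _ _ (-ε)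
          (by rcases hε with rfl | rfl <;> simp) _ fun x i => tM_le _ _ _ (fun k i => by
            rw [Finsupp.mapRange_apply]
            have := hm k i
            omega) (fun k i => by
            rw [Finsupp.mapRange_apply]
            have := hm k i
            omega) x i)
      have h4 : (fun k => (m k).mapRange (fun x => (x + 1) / 2) rfl +
          (m k).mapRange (fun x => x / 2) rfl) = m := by
        funext k
        ext i
        rw [Finsupp.add_apply, Finsupp.mapRange_apply, Finsupp.mapRange_apply]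
        omega
      rw [h4] at h2
      exact h2

theorem P1' {ρ K : Type} [Fintype K] (ε : ℤ) (hε : ε = 1 ∨ ε = -1) (m : K → ρ →₀ ℕ) :
    UNI ρ (C ε * SM m) := by
  classical
  refine P1 (Finset.univ.sup fun k => (m k).support.sup (m k)) ρ K ε hε m fun k i => ?_
  by_cases hi : i ∈ (m k).support
  · exact (Finset.le_sup (f := m k) hi).trans
      (Finset.le_sup (f := fun k => (m k).support.sup (m k)) (Finset.mem_univ k))
  · rw [Finsupp.notMem_support_iff.1 hi]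
    exact Nat.zero_le _

theorem signs {ρ : Type} (h : MvPolynomial ρ ℤ) : ∃ (K₁ K₂ : Type) (_ : Fintype K₁)
    (_ : Fintype K₂) (m₁ : K₁ → ρ →₀ ℕ) (m₂ : K₂ → ρ →₀ ℕ), h = SM m₁ - SM m₂ := by
  classical
  refine ⟨Σ m : {m // m ∈ h.support}, Fin (coeff m.1 h).toNat,
    Σ m : {m // m ∈ h.support}, Fin (-(coeff m.1 h)).toNat, inferInstance, inferInstance,
    fun x => x.1.1, fun x => x.1.1, ?_⟩
  unfold SM
  rw [Fintype.sum_sigma, Fintype.sum_sigma, ← Finset.sum_sub_distrib]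
  have h1 : ∀ m : {m // m ∈ h.support}, ((∑ _y : Fin (coeff m.1 h).toNat,
      (monomial m.1 (1 : ℤ))) - ∑ _y : Fin (-(coeff m.1 h)).toNat, (monomial m.1 (1 : ℤ))) =
      monomial m.1 (coeff m.1 h) := by
    intro m
    rw [Finset.sum_const, Finset.sum_const, Finset.card_univ, Finset.card_univ, Fintype.card_fin,
      Fintype.card_fin, ← map_nsmul, ← map_nsmul, ← map_sub, nsmul_eq_mul, nsmul_eq_mul, mul_one,
      mul_one]
    congr 1
    exact Int.toNat_sub_toNat_neg _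
  rw [Finset.sum_congr rfl fun m _ => h1 m,
    Finset.sum_coe_sort h.support fun m => monomial m (coeff m h)]
  exact (support_sum_monomial_coeff h).symm

/-- **HYP.** -/
theorem hyp_normal : S_Hyp := by
  classical
  intro ρ _ h
  obtain ⟨K₁, K₂, _, _, m₁, m₂, hh⟩ := signs h
  have h1 := gstep (ρ := ρ) (K := K₁) (-SM m₂) (-1) (by norm_num)
    (fun k => monomial (m₁ k) 1) (fun k => monomial 0 1) (by
      have h2 := P1' (ρ := ρ ⊕ (K₁ ⊕ K₁)) (K := K₂ ⊕ (K₁ ⊕ (K₁ ⊕ K₁))) (-1) (Or.inr rfl)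
        (Sum.elim (fun k => Finsupp.mapDomain Sum.inl (m₂ k)) (tM m₁ fun _ => 0))
      have e1 : SM (Sum.elim (fun k => Finsupp.mapDomain Sum.inl (m₂ k)) (tM m₁ fun _ => 0)) =
          rename Sum.inl (SM m₂) + SM (tM m₁ fun _ : K₁ => (0 : ρ →₀ ℕ)) := by
        unfold SM
        rw [Fintype.sum_sum_type, map_sum]
        congr 1
        refine Finset.sum_congr rfl fun k _ => ?_
        rw [rename_monomial]
        rfl
      rw [e1, tM_SM] at h2
      convert h2 using 1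
      rw [map_neg, C_neg, C_1]
      ring)
  have e2 : -SM m₂ - C (-1) * ∑ k, monomial (m₁ k) 1 * monomial 0 1 = h := by
    rw [hh, C_neg, C_1]
    unfold SM
    simp only [monomial_mul, add_zero, mul_one]
    ring
  rw [e2] at h1
  exact h1

end Pool.Agent.N400.CU
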